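import Pool.Agent.Lib.MP_abd978_an.Interfaces

/-!
# Modules DENSC, MOSC, OSCC (helper42): versions of the estimates for continuous solutions
-/

set_option autoImplicit false

open MeasureTheory Metric Set Filter Topology ContDiff
open scoped Gradient RealInnerProductSpace

namespace Pool.Agent.Lib.MP_abd978_an.H42

variable {n : ℕ} {μ : Measure (E n)} {p : ℝ} {a : E n → E n → E n}

/-- closed conditions which hold almost everywhere hold everywhere -/
theorem forall_of_ae (hg : Geo p μ) {B : Set (E n)} (hB : IsOpen B) {u : E n → ℝ}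
    (hu : ContinuousOn u B) {S : Set ℝ} (hS : IsClosed S)
    (h : ∀ᵐ x ∂(μ.restrict B), u x ∈ S) : ∀ x ∈ B, u x ∈ S := by
  have := hg.lf
  intro x hx
  by_contra hxS
  have h1 : IsOpen (B ∩ u ⁻¹' Sᶜ) := hu.isOpen_inter_preimage hB hS.isOpen_compl
  obtain ⟨ε, hε, hball⟩ := Metric.isOpen_iff.1 h1 x ⟨hx, hxS⟩
  rw [ae_restrict_iff' hB.measurableSet] at h
  have h2 : μ (ball x ε) = 0 := by
    refine measure_mono_null ?_ h
    intro y hy hcon
    exact (hball hy).2 (hcon (hball hy).1)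
  have h3 := hg.pos x ε hε
  rw [Measure.real, h2] at h3
  simp at h3

/-- restriction of a continuous solution to a slightly larger ball, truncated outside -/
theorem exists_bsol {U : Set (E n)} {u : E n → ℝ} (hU : IsOpen U) (hu : Harm μ p a U u) {z : E n}
    {r : ℝ} (hr : 0 < r) (hz : closedBall z r ⊆ U) {c d : ℝ} (hcd : c ≤ d)
    (hb : ∀ δ > 0, closedBall z (r + δ) ⊆ U → ∀ x ∈ closedBall z (r + δ), u x ∈ Icc c d) :
    ∃ (D : Set (E n)) (v : E n → E n) (u' : E n → ℝ), D ⊆ U ∧ closedBall z r ⊆ D ∧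
      (∀ x ∈ D, u' x = u x) ∧ BSol μ p a D u' v c d := by
  classical
  obtain ⟨hc, v, hs, he⟩ := hu
  obtain ⟨δ, hδ, hsub⟩ := (isCompact_closedBall z r).exists_cthickening_subset_open hU hz
  rw [cthickening_closedBall hδ.le hr.le, add_comm] at hsub
  have hcl : closure (ball z (r + δ)) ⊆ closedBall z (r + δ) := closure_ball_subset_closedBall
  have hD := hs (ball z (r + δ)) isOpen_ball
    ((isCompact_closedBall z (r + δ)).of_isClosed_subset isClosed_closure hcl) (hcl.trans hsub)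
  have hsubD : ball z (r + δ) ⊆ closedBall z (r + δ) := ball_subset_closedBall
  let u' : E n → ℝ := fun x => if x ∈ ball z (r + δ) then u x else c
  have hu' : ∀ x ∈ ball z (r + δ), u' x = u x := fun x hx => if_pos hx
  have hae : u =ᵐ[μ.restrict (ball z (r + δ))] u' := by
    refine (ae_restrict_iff' isOpen_ball.measurableSet).2 (Eventually.of_forall fun x hx => ?_)
    exact (hu' x hx).symm
  refine ⟨ball z (r + δ), v, u', hsubD.trans hsub, closedBall_subset_ball (by linarith), hu', ?_⟩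
  refine ⟨isOpen_ball, ?_, ?_, ?_⟩
  · obtain ⟨h1, h2, φ, h3, h4, h5⟩ := hD
    refine ⟨MemLp.ae_eq hae h1, h2, φ, h3, ?_, h5⟩
    have h6 : (fun i => eLpNorm (fun x => φ i x - u' x) (ENNReal.ofReal p)
        (μ.restrict (ball z (r + δ)))) = fun i => eLpNorm (fun x => φ i x - u x)
        (ENNReal.ofReal p) (μ.restrict (ball z (r + δ))) := by
      funext i
      refine eLpNorm_congr_ae ?_
      filter_upwards [hae] with x hx
      rw [hx]
    rw [h6]
    exact h4
  · intro x
    by_cases hx : x ∈ ball z (r + δ)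
    · rw [hu' x hx]
      exact hb δ hδ hsub x (hsubD hx)
    · have : u' x = c := if_neg hx
      rw [this]
      exact ⟨le_rfl, hcd⟩
  · exact he.mono (hsubD.trans hsub)


theorem densc (h : DensStatement) : DenscStatement := by
  intro n p μ a α β hop θ hθ
  obtain ⟨l, hl, hl1, hl2⟩ := h n p μ a α β hop θ hθ
  refine ⟨l, hl, hl1, ?_⟩
  intro U u k z r hU hu hr hz hpos hk hm
  -- a bound
  obtain ⟨δ, hδ, hsub⟩ := (isCompact_closedBall z (4 * r)).exists_cthickening_subset_open hU hz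
  rw [cthickening_closedBall hδ.le (by positivity), add_comm] at hsub
  obtain ⟨d, hd⟩ := (isCompact_closedBall z (4 * r + δ)).exists_bound_of_continuousOn
    (hu.1.mono hsub)
  have hzz : z ∈ closedBall z (4 * r + δ) := mem_closedBall_self (by positivity)
  have hd0 : 0 ≤ d := (norm_nonneg _).trans (hd z hzz)
  have hV : closedBall z (4 * r) ⊆ ball z (4 * r + δ) := closedBall_subset_ball (by linarith)
  have hVU : ball z (4 * r + δ) ⊆ U := ball_subset_closedBall.trans hsub
  obtain ⟨D, v, u', hDU, hzD, huD, hB⟩ := exists_bsol (U := ball z (4 * r + δ)) isOpen_ball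
    (hu.mono hVU) (by positivity) hV (c := 0) (d := d) hd0 (by
      intro δ' _ hδ2 x hx
      refine ⟨hpos x (hVU (hδ2 hx)), ?_⟩
      exact (le_abs_self _).trans (hd x (ball_subset_closedBall (hδ2 hx))))
  have hball : ball z (2 * r) ⊆ D :=
    (ball_subset_closedBall.trans (closedBall_subset_closedBall (by linarith))).trans hzD
  have hball1 : ball z r ⊆ D :=
    (ball_subset_closedBall.trans (closedBall_subset_closedBall (by linarith))).trans hzD
  have hset : {x | x ∈ ball z (2 * r) ∧ k ≤ u' x} = {x | x ∈ ball z (2 * r) ∧ k ≤ u x} := by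
    ext x
    simp only [mem_ofPred_eq]
    constructor
    · rintro ⟨h1, h2⟩
      exact ⟨h1, by rwa [huD x (hball h1)] at h2⟩
    · rintro ⟨h1, h2⟩
      exact ⟨h1, by rwa [huD x (hball h1)]⟩
  have h1 := hl2 D u' v d k z r hB hr hzD hk (by rw [hset]; exact hm)
  refine forall_of_ae hop.toGeo isOpen_ball (hu.1.mono (hball1.trans (hDU.trans hVU)))
    isClosed_Ici (S := Ici (l * k)) ?_
  rw [ae_restrict_iff' isOpen_ball.measurableSet] at h1 ⊢
  filter_upwards [h1] with x hx hxb
  have := hx hxb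
  rwa [huD x (hball1 hxb)] at this

theorem oscc (h : OscStatement) : OsccStatement := by
  intro n p μ a α β hop
  obtain ⟨c, hc, hc1, hc2⟩ := h n p μ a α β hop
  refine ⟨c, hc, hc1, ?_⟩
  intro U u m M z r hU hu hr hz hb
  have hzU : z ∈ U := hz (mem_closedBall_self (by positivity))
  obtain ⟨D, v, u', hDU, hzD, huD, hB⟩ := exists_bsol (U := U) hU hu
    (by positivity : (0 : ℝ) < 4 * r) hz (c := m) (d := M) ((hb z hzU).1.trans (hb z hzU).2) (by
      intro δ' _ hδ2 x hx
      exact hb x (hδ2 hx))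
  have hball1 : ball z r ⊆ D :=
    (ball_subset_closedBall.trans (closedBall_subset_closedBall (by linarith))).trans hzD
  obtain ⟨m', M', h1, -, h3, h4, h5⟩ := hc2 D u' v m M z r hB hr hzD
  refine ⟨m', M', h1, h3, h4, ?_⟩
  refine forall_of_ae hop.toGeo isOpen_ball (hu.1.mono (hball1.trans hDU))
    isClosed_Icc (S := Icc m' M') ?_
  rw [ae_restrict_iff' isOpen_ball.measurableSet] at h5 ⊢
  filter_upwards [h5] with x hx hxb
  have := hx hxb
  rwa [huD x (hball1 hxb)] at this

/-! ### MOSC -/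

/-- smooth approximation of the positive part of `t - k` -/
noncomputable def pp (k δ t : ℝ) : ℝ := ((t - k) + Real.sqrt ((t - k) ^ 2 + δ ^ 2)) / 2

theorem pp_rad {k δ : ℝ} (hδ : 0 < δ) (t : ℝ) : 0 < (t - k) ^ 2 + δ ^ 2 := by positivity

theorem abs_lt_sqrt {x δ : ℝ} (hδ : 0 < δ) : |x| < Real.sqrt (x ^ 2 + δ ^ 2) := by
  rw [← Real.sqrt_sq_eq_abs]
  exact Real.sqrt_lt_sqrt (sq_nonneg x) (by nlinarith [sq_pos_of_pos hδ])

theorem pp_contDiff {k δ : ℝ} (hδ : 0 < δ) : ContDiff ℝ ∞ (pp k δ) := by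
  unfold pp
  have h1 : ContDiff ℝ ∞ fun t : ℝ => (t - k) ^ 2 + δ ^ 2 := by fun_prop
  have h2 : ContDiff ℝ ∞ fun t : ℝ => Real.sqrt ((t - k) ^ 2 + δ ^ 2) :=
    h1.sqrt fun t => (pp_rad hδ t).ne'
  have h3 : ContDiff ℝ ∞ fun t : ℝ => t - k := by fun_prop
  exact (h3.add h2).div_const 2

theorem pp_hasDerivAt {k δ : ℝ} (hδ : 0 < δ) (t : ℝ) :
    HasDerivAt (pp k δ) ((1 + (t - k) / Real.sqrt ((t - k) ^ 2 + δ ^ 2)) / 2) t := by
  unfold pp
  have h0 : HasDerivAt (fun t : ℝ => t - k) 1 t := (hasDerivAt_id t).sub_const k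
  have h1 : HasDerivAt (fun t : ℝ => (t - k) ^ 2 + δ ^ 2) (2 * (t - k)) t := by
    have := (h0.pow 2).add_const (δ ^ 2)
    simpa using this
  have h2 := h1.sqrt (pp_rad hδ t).ne'
  have h3 := (h0.add h2).div_const 2
  refine h3.congr_deriv ?_
  have hs : Real.sqrt ((t - k) ^ 2 + δ ^ 2) ≠ 0 := (Real.sqrt_pos.2 (pp_rad hδ t)).ne'
  field_simp

theorem pp_deriv {k δ : ℝ} (hδ : 0 < δ) :
    deriv (pp k δ) = fun t => (1 + (t - k) / Real.sqrt ((t - k) ^ 2 + δ ^ 2)) / 2 := by
  funext t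
  exact (pp_hasDerivAt hδ t).deriv

theorem pp_deriv_pos {k δ : ℝ} (hδ : 0 < δ) (t : ℝ) : 0 < deriv (pp k δ) t := by
  rw [pp_deriv hδ]
  have hs : 0 < Real.sqrt ((t - k) ^ 2 + δ ^ 2) := Real.sqrt_pos.2 (pp_rad hδ t)
  have h1 := abs_lt_sqrt (x := t - k) hδ
  have h2 : -1 < (t - k) / Real.sqrt ((t - k) ^ 2 + δ ^ 2) := by
    rw [lt_div_iff₀ hs]
    linarith [neg_abs_le (t - k)]
  show 0 < (1 + (t - k) / Real.sqrt ((t - k) ^ 2 + δ ^ 2)) / 2
  linarith

theorem pp_deriv2_nonneg {k δ : ℝ} (hδ : 0 < δ) (t : ℝ) : 0 ≤ deriv (deriv (pp k δ)) t := by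
  rw [pp_deriv hδ]
  have hs : 0 < Real.sqrt ((t - k) ^ 2 + δ ^ 2) := Real.sqrt_pos.2 (pp_rad hδ t)
  have h0 : HasDerivAt (fun t : ℝ => t - k) 1 t := (hasDerivAt_id t).sub_const k
  have h1 : HasDerivAt (fun t : ℝ => (t - k) ^ 2 + δ ^ 2) (2 * (t - k)) t := by
    have := (h0.pow 2).add_const (δ ^ 2)
    simpa using this
  have h2 := h1.sqrt (pp_rad hδ t).ne'
  have h3 := ((h0.div h2 hs.ne').const_add 1).div_const 2
  have h4 : deriv (fun t => (1 + (t - k) / Real.sqrt ((t - k) ^ 2 + δ ^ 2)) / 2) t = _ := h3.deriv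
  rw [h4]
  have hsq : Real.sqrt ((t - k) ^ 2 + δ ^ 2) ^ 2 = (t - k) ^ 2 + δ ^ 2 :=
    Real.sq_sqrt (pp_rad hδ t).le
  have h5 : 0 ≤ 1 * Real.sqrt ((t - k) ^ 2 + δ ^ 2) -
      (t - k) * (2 * (t - k) / (2 * Real.sqrt ((t - k) ^ 2 + δ ^ 2))) := by
    have h6 : (t - k) * (2 * (t - k) / (2 * Real.sqrt ((t - k) ^ 2 + δ ^ 2)))
        = (t - k) ^ 2 / Real.sqrt ((t - k) ^ 2 + δ ^ 2) := by
      field_simp
    rw [h6, one_mul, sub_nonneg, div_le_iff₀ hs, ← sq, hsq]
    nlinarith [sq_nonneg δ]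
  positivity

theorem pp_ge {k δ : ℝ} (t : ℝ) : max (t - k) 0 ≤ pp k δ t := by
  unfold pp
  have h1 : |t - k| ≤ Real.sqrt ((t - k) ^ 2 + δ ^ 2) := by
    rw [← Real.sqrt_sq_eq_abs]
    exact Real.sqrt_le_sqrt (by nlinarith [sq_nonneg δ])
  rcases le_total 0 (t - k) with h | h
  · rw [max_eq_left h]
    rw [abs_of_nonneg h] at h1
    linarith
  · rw [max_eq_right h]
    rw [abs_of_nonpos h] at h1
    linarith

theorem pp_pos {k δ : ℝ} (hδ : 0 < δ) (t : ℝ) : 0 < pp k δ t := by
  unfold pp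
  have h1 := abs_lt_sqrt (x := t - k) hδ
  linarith [neg_abs_le (t - k)]

theorem pp_le {k δ : ℝ} (hδ : 0 < δ) (t : ℝ) : pp k δ t ≤ max (t - k) 0 + δ / 2 := by
  unfold pp
  have h1 : Real.sqrt ((t - k) ^ 2 + δ ^ 2) ≤ |t - k| + δ := by
    apply Real.sqrt_le_iff.2
    refine ⟨by positivity, ?_⟩
    nlinarith [abs_nonneg (t - k), sq_abs (t - k)]
  rcases le_total 0 (t - k) with h | h
  · rw [max_eq_left h]
    rw [abs_of_nonneg h] at h1
    linarith
  · rw [max_eq_right h]
    rw [abs_of_nonpos h] at h1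
    linarith

theorem pp_conv {k δ : ℝ} (hδ : 0 < δ) (c d : ℝ) : Conv (pp k δ) c d :=
  ⟨⟨univ, isOpen_univ, subset_univ _, (pp_contDiff hδ).contDiffOn⟩, fun t _ => pp_pos hδ t,
    fun t _ => (pp_deriv_pos hδ t).ne', fun t _ => pp_deriv2_nonneg hδ t⟩

theorem mosc (h : Mos2Statement) : MoscStatement := by
  intro n p μ a α β hop
  have := hop.lf
  obtain ⟨C, hC, hC2⟩ := h n p μ a α β hop
  refine ⟨C, hC, ?_⟩
  intro U u k z t hU hu ht hz
  -- bounds
  obtain ⟨δ, hδ, hsub⟩ := (isCompact_closedBall z t).exists_cthickening_subset_open hU hz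
  rw [cthickening_closedBall hδ.le ht.le, add_comm] at hsub
  obtain ⟨d, hd⟩ := (isCompact_closedBall z (t + δ)).exists_bound_of_continuousOn
    (hu.1.mono hsub)
  have hzz : z ∈ closedBall z (t + δ) := mem_closedBall_self (by positivity)
  have hd0 : 0 ≤ d := (norm_nonneg _).trans (hd z hzz)
  have hV : closedBall z t ⊆ ball z (t + δ) := closedBall_subset_ball (by linarith)
  have hVU : ball z (t + δ) ⊆ U := ball_subset_closedBall.trans hsub
  obtain ⟨D, v, u', hDU, hzD, huD, hB⟩ := exists_bsol (U := ball z (t + δ)) isOpen_ball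
    (hu.mono hVU) ht hV (c := -d) (d := d) (by linarith) (by
      intro δ' _ hδ2 x hx
      have := hd x (ball_subset_closedBall (hδ2 hx))
      rw [Real.norm_eq_abs] at this
      exact abs_le.1 this)
  have hballt : ball z t ⊆ D := ball_subset_closedBall.trans hzD
  have hball1 : ball z (t / 2) ⊆ D :=
    (ball_subset_closedBall.trans (closedBall_subset_closedBall (by linarith))).trans hzD
  have hμ : 0 < μ.real (ball z t) := hop.pos z t ht
  have hfin : μ (ball z t) ≠ ⊤ := by
    have := (isCompact_closedBall z t).measure_lt_top (μ := μ)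
    exact ((measure_mono ball_subset_closedBall).trans_lt this).ne
  have hint : IntegrableOn (fun y => max (u y - k) 0) (ball z t) μ := by
    have hcont : ContinuousOn (fun y => max (u y - k) 0) (closedBall z t) := by
      have h0 : ContinuousOn u (closedBall z t) := hu.1.mono hz
      exact (continuous_id.sub continuous_const |>.max continuous_const : Continuous
        fun s : ℝ => max (s - k) 0).comp_continuousOn h0
    exact (hcont.integrableOn_compact (isCompact_closedBall z t)).mono_set ball_subset_closedBall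
  intro x hx
  -- the estimate with `ε`
  have key : ∀ ε : ℝ, 0 < ε → u x - k ≤ C * (⨍ y in ball z t, max (u y - k) 0 ∂μ) + C * (ε / 2) := by
    intro ε hε
    have h1 := hC2 D u' v (-d) d (pp k ε) z t hB (pp_conv hε _ _) ht hzD
    have h2 : ∀ x ∈ ball z (t / 2), u x ∈ {s | pp k ε s ≤ C * ⨍ y in ball z t, pp k ε (u y) ∂μ} := by
      refine forall_of_ae hop.toGeo isOpen_ball (hu.1.mono (hball1.trans (hDU.trans hVU))) ?_ ?_
      · exact isClosed_le (pp_contDiff hε).continuous continuous_const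
      · have e : ⨍ y in ball z t, pp k ε (u' y) ∂μ = ⨍ y in ball z t, pp k ε (u y) ∂μ := by
          rw [setAverage_eq, setAverage_eq]
          congr 1
          refine setIntegral_congr_fun isOpen_ball.measurableSet fun y hy => ?_
          show pp k ε (u' y) = pp k ε (u y)
          rw [huD y (hballt hy)]
        rw [ae_restrict_iff' isOpen_ball.measurableSet] at h1 ⊢
        filter_upwards [h1] with y hy hyb
        have := hy hyb
        rw [e, huD y (hball1 hyb)] at this
        exact this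
    have h3 := h2 x hx
    rw [mem_ofPred_eq] at h3
    have h4 : ⨍ y in ball z t, pp k ε (u y) ∂μ ≤ (⨍ y in ball z t, max (u y - k) 0 ∂μ) + ε / 2 := by
      rw [setAverage_eq, setAverage_eq, smul_eq_mul, smul_eq_mul]
      have h5 : ∫ y in ball z t, pp k ε (u y) ∂μ ≤
          ∫ y in ball z t, (max (u y - k) 0 + ε / 2) ∂μ := by
        refine integral_mono_of_nonneg ?_ ?_ ?_
        · exact Eventually.of_forall fun y => (pp_pos hε _).le
        · exact hint.add (integrableOn_const hfin)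
        · exact Eventually.of_forall fun y => pp_le hε _
      rw [integral_add hint (integrableOn_const hfin), setIntegral_const, smul_eq_mul] at h5
      calc (μ.real (ball z t))⁻¹ * ∫ y in ball z t, pp k ε (u y) ∂μ
          ≤ (μ.real (ball z t))⁻¹ * (∫ y in ball z t, max (u y - k) 0 ∂μ +
            μ.real (ball z t) * (ε / 2)) := mul_le_mul_of_nonneg_left h5 (by positivity)
        _ = (μ.real (ball z t))⁻¹ * ∫ y in ball z t, max (u y - k) 0 ∂μ + ε / 2 := by
            field_simp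
    calc u x - k ≤ max (u x - k) 0 := le_max_left _ _
      _ ≤ pp k ε (u x) := pp_ge _
      _ ≤ C * ⨍ y in ball z t, pp k ε (u y) ∂μ := h3
      _ ≤ C * ((⨍ y in ball z t, max (u y - k) 0 ∂μ) + ε / 2) :=
          mul_le_mul_of_nonneg_left h4 hC.le
      _ = _ := by ring
  refine le_of_forall_pos_le_add fun ε hε => ?_
  have := key (2 * ε / C) (by positivity)
  have e : C * (2 * ε / C / 2) = ε := by
    field_simp
  rwa [e] at this

end Pool.Agent.Lib.MP_abd978_an.H42
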