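import Pool.Agent.Lib.MP_abd978_an.Interfaces

/-!
# Module HARN (helper42): Harnack's inequality (DiBenedetto's argument)
-/

set_option autoImplicit false

open MeasureTheory Metric Set Filter Topology ContDiff
open scoped Gradient RealInnerProductSpace

namespace Pool.Agent.Lib.MP_abd978_an.H42

variable {n : ℕ} {μ : Measure (E n)} {p : ℝ} {a : E n → E n → E n} {α β : ℝ}

theorem measure_ball_ne_top (hg : Geo p μ) (z : E n) (r : ℝ) : μ (ball z r) ≠ ⊤ := by
  have := hg.lf
  have h := (isCompact_closedBall z r).measure_lt_top (μ := μ)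
  exact ((measure_mono ball_subset_closedBall).trans_lt h).ne

/-- the expansion of positivity on doubled balls -/
theorem expand (h : DenscStatement) (hop : Op p μ a α β) : ∃ N : ℕ, 1 ≤ N ∧ ∀ (U : Set (E n)) (u : E n → ℝ)
    (x : E n) (s k : ℝ), IsOpen U → Harm μ p a U u → (∀ y ∈ U, 0 ≤ u y) → 0 < s → 0 < k →
    closedBall x (8 * s) ⊆ U → (∀ y ∈ ball x s, k ≤ u y) →
      ∀ y ∈ ball x (2 * s), (1 / 2) ^ N * k ≤ u y := by
  obtain ⟨CD, hCD, hdbl⟩ := hop.dbl
  have hθ : (0 : ℝ) < (CD ^ 2)⁻¹ := by positivity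
  obtain ⟨l, hl, hl1, hl2⟩ := h n p μ a α β hop _ hθ
  obtain ⟨N0, hN0⟩ := exists_pow_lt_of_lt_one hl (by norm_num : (1 / 2 : ℝ) < 1)
  obtain ⟨N, hN1, hN⟩ : ∃ N : ℕ, 1 ≤ N ∧ (1 / 2 : ℝ) ^ N < l :=
    ⟨N0 + 1, by omega, (pow_le_pow_of_le_one (by norm_num) (by norm_num) (by omega)).trans_lt hN0⟩
  refine ⟨N, hN1, ?_⟩
  intro U u x s k hU hu hpos hs hk hsub hb y hy
  have h1 : l * k ≤ u y := by
    refine hl2 U u k x (2 * s) hU hu (by positivity) ?_ hpos hk ?_ y hy
    · have e : 4 * (2 * s) = 8 * s := by ring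
      rw [e]
      exact hsub
    · have h2 : μ.real (ball x (2 * (2 * s))) ≤ CD ^ 2 * μ.real (ball x s) := by
        calc μ.real (ball x (2 * (2 * s))) ≤ CD * μ.real (ball x (2 * s)) :=
              hdbl x (2 * s) (by positivity)
          _ ≤ CD * (CD * μ.real (ball x s)) :=
              mul_le_mul_of_nonneg_left (hdbl x s hs) (by positivity)
          _ = _ := by ring
      have h3 : μ.real (ball x s) ≤ μ.real {y | y ∈ ball x (2 * (2 * s)) ∧ k ≤ u y} := by
        refine measureReal_mono ?_ ?_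
        · intro y hy
          exact ⟨ball_subset_ball (by linarith) hy, hb y hy⟩
        · refine ne_top_of_le_ne_top (measure_ball_ne_top hop.toGeo x (2 * (2 * s))) ?_
          exact measure_mono fun y hy => hy.1
      calc (CD ^ 2)⁻¹ * μ.real (ball x (2 * (2 * s)))
          ≤ (CD ^ 2)⁻¹ * (CD ^ 2 * μ.real (ball x s)) :=
            mul_le_mul_of_nonneg_left h2 (by positivity)
        _ = μ.real (ball x s) := by field_simp
        _ ≤ _ := h3
  exact (mul_le_mul_of_nonneg_right hN.le hk.le).trans h1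

/-- iteration of `expand` -/
theorem expand_iter {N : ℕ} {u : E n → ℝ} {x : E n} {s k : ℝ} (hs : 0 < s)
    (hk : 0 < k) {Q : ℝ}
    (h : ∀ s' k' : ℝ, 0 < s' → 0 < k' → s' ≤ Q → (∀ y ∈ ball x s', k' ≤ u y) →
      ∀ y ∈ ball x (2 * s'), (1 / 2) ^ N * k' ≤ u y)
    (h0 : ∀ y ∈ ball x s, k ≤ u y) : ∀ j : ℕ, (∀ i < j, 2 ^ i * s ≤ Q) →
      ∀ y ∈ ball x (2 ^ j * s), ((1 / 2 : ℝ) ^ j) ^ N * k ≤ u y := by
  intro j
  induction j with
  | zero =>
    intro _ y hy
    simp only [pow_zero, one_mul, one_pow] at hy ⊢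
    exact h0 y hy
  | succ j ih =>
    intro hj y hy
    have h1 := ih fun i hi => hj i (by omega)
    have h2 := h (2 ^ j * s) (((1 / 2 : ℝ) ^ j) ^ N * k) (by positivity) (by positivity)
      (hj j (by omega)) h1 y (by
        have e : 2 * (2 ^ j * s) = 2 ^ (j + 1) * s := by ring
        rw [e]
        exact hy)
    refine le_trans (le_of_eq ?_) h2
    rw [pow_succ, mul_pow]
    ring

/-- the measure of the set where `u` is large -/
theorem measure_large (hop : Op p μ a α β) {C : ℝ} (hC : 0 < C) {u : E n → ℝ} {x : E n}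
    {ρ T Λ : ℝ} (hρ : 0 < ρ) (hT : 0 < T) (hΛ : 0 < Λ)
    (hm : T - T / 2 ≤ C * ⨍ y in ball x ρ, max (u y - T / 2) 0 ∂μ)
    (hc : ContinuousOn u (closedBall x ρ)) (hub : ∀ y ∈ ball x ρ, u y ≤ Λ * T) :
    1 / (2 * C * Λ) * μ.real (ball x ρ) ≤ μ.real {y | y ∈ ball x ρ ∧ T / 2 ≤ u y} := by
  have hlf := hop.lf
  have hμ : 0 < μ.real (ball x ρ) := hop.pos x ρ hρ
  have hfin : μ (ball x ρ) ≠ ⊤ := measure_ball_ne_top hop.toGeo x ρ
  set S : Set (E n) := {y | y ∈ ball x ρ ∧ T / 2 ≤ u y} with hS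
  have hSm : MeasurableSet S := by
    have h1 : IsOpen (ball x ρ ∩ u ⁻¹' Iio (T / 2)) :=
      (hc.mono ball_subset_closedBall).isOpen_inter_preimage isOpen_ball isOpen_Iio
    have h2 : S = ball x ρ \ (ball x ρ ∩ u ⁻¹' Iio (T / 2)) := by
      ext y
      simp only [hS, mem_ofPred_eq, Set.mem_sdiff, mem_inter_iff, mem_preimage, mem_Iio, not_and,
        not_lt]
      constructor
      · rintro ⟨h3, h4⟩
        exact ⟨h3, fun _ => h4⟩
      · rintro ⟨h3, h4⟩
        exact ⟨h3, h4 h3⟩
    rw [h2]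
    exact isOpen_ball.measurableSet.diff h1.measurableSet
  have hSsub : S ⊆ ball x ρ := fun y hy => hy.1
  have hSfin : μ S ≠ ⊤ := ne_top_of_le_ne_top hfin (measure_mono hSsub)
  have h1 : ∫ y in ball x ρ, max (u y - T / 2) 0 ∂μ ≤ Λ * T * μ.real S := by
    have h2 : ∫ y in ball x ρ, max (u y - T / 2) 0 ∂μ ≤
        ∫ y in ball x ρ, S.indicator (fun _ => Λ * T) y ∂μ := by
      refine integral_mono_of_nonneg ?_ ?_ ?_
      · exact Eventually.of_forall fun y => le_max_right _ _
      · refine Integrable.indicator ?_ hSm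
        exact integrableOn_const hfin
      · refine (ae_restrict_iff' isOpen_ball.measurableSet).2 (Eventually.of_forall fun y hy => ?_)
        by_cases hyS : T / 2 ≤ u y
        · have : y ∈ S := ⟨hy, hyS⟩
          rw [indicator_of_mem this]
          refine max_le ?_ (by positivity)
          have := hub y hy
          linarith
        · have : y ∉ S := fun h => hyS h.2
          rw [indicator_of_notMem this]
          refine max_le ?_ le_rfl
          push Not at hyS
          linarith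
    refine h2.trans (le_of_eq ?_)
    rw [setIntegral_indicator hSm, inter_eq_self_of_subset_right hSsub, setIntegral_const,
      smul_eq_mul, mul_comm]
  rw [setAverage_eq, smul_eq_mul] at hm
  have h3 : T / 2 ≤ C * ((μ.real (ball x ρ))⁻¹ * (Λ * T * μ.real S)) := by
    have h4 : (μ.real (ball x ρ))⁻¹ * ∫ y in ball x ρ, max (u y - T / 2) 0 ∂μ ≤
        (μ.real (ball x ρ))⁻¹ * (Λ * T * μ.real S) :=
      mul_le_mul_of_nonneg_left h1 (by positivity)
    have h5 := mul_le_mul_of_nonneg_left h4 hC.le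
    linarith
  have h6 : μ.real (ball x ρ) * (T / 2) ≤ C * (Λ * T * μ.real S) := by
    calc μ.real (ball x ρ) * (T / 2)
        ≤ μ.real (ball x ρ) * (C * ((μ.real (ball x ρ))⁻¹ * (Λ * T * μ.real S))) :=
          mul_le_mul_of_nonneg_left h3 hμ.le
      _ = C * (Λ * T * μ.real S) := by
          field_simp
  have h7 : μ.real (ball x ρ) ≤ 2 * C * Λ * μ.real S := by
    have h8 : T * μ.real (ball x ρ) ≤ T * (2 * C * Λ * μ.real S) := by
      nlinarith
    exact le_of_mul_le_mul_left h8 hT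
  rw [div_mul_eq_mul_div, one_mul, div_le_iff₀ (by positivity)]
  linarith

theorem harn (h1 : DenscStatement) (h2 : MoscStatement) : HarnStatement := by
  intro n p μ a α β hop
  obtain ⟨N, hN1, hN⟩ := expand h1 hop
  obtain ⟨C, hC, hC2⟩ := h2 n p μ a α β hop
  obtain ⟨l, hl, hl1, hl2⟩ := h1 n p μ a α β hop (1 / (2 * C * 2 ^ N)) (by positivity)
  have hCge : (1 : ℝ) ≤ 2 * 24 ^ N / l := by
    rw [le_div_iff₀ hl]
    have : (1 : ℝ) ≤ 24 ^ N := one_le_pow₀ (by norm_num)
    linarith
  refine ⟨2 * 24 ^ N / l, hCge, ?_⟩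
  intro U' u z r hU' hu' hr hsub' hpos' x hx y hy
  -- the domain
  have hVU : ball z (64 * r) ⊆ U' := ball_subset_closedBall.trans hsub'
  have hu : Harm μ p a (ball z (64 * r)) u := hu'.mono hVU
  have hpos : ∀ y ∈ ball z (64 * r), 0 ≤ u y := fun y hy => hpos' y (ball_subset_closedBall hy)
  -- the maximum of the auxiliary function
  have hcont : ContinuousOn (fun y => (2 - dist y z / r) ^ N * u y) (closedBall z (2 * r)) := by
    refine ContinuousOn.mul ?_ (hu.1.mono (closedBall_subset_ball (by linarith)))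
    exact (((continuous_const.sub ((continuous_id.dist continuous_const).div_const r))).pow
      N).continuousOn
  obtain ⟨xs, hxs, hmax⟩ := (isCompact_closedBall z (2 * r)).exists_isMaxOn
    ⟨z, mem_closedBall_self (by positivity)⟩ hcont
  have hmax' : ∀ y ∈ closedBall z (2 * r), (2 - dist y z / r) ^ N * u y ≤
      (2 - dist xs z / r) ^ N * u xs := fun y hy => hmax hy
  have hxs' : dist xs z ≤ 2 * r := hxs
  have hd0 : 0 ≤ 2 - dist xs z / r := by
    rw [sub_nonneg, div_le_iff₀ hr]
    exact hxs'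
  have hxsV : xs ∈ ball z (64 * r) := closedBall_subset_ball (by linarith) hxs
  have hyV : 0 ≤ u y := hpos' y (closedBall_subset_closedBall (by linarith) hy)
  -- the value at `x`
  have hxle : u x ≤ (2 - dist xs z / r) ^ N * u xs := by
    have hx2 : dist x z ≤ r := hx
    have h3 := hmax' x (closedBall_subset_closedBall (by linarith) hx)
    have h4 : 1 ≤ 2 - dist x z / r := by
      have : dist x z / r ≤ 1 := by
        rw [div_le_one hr]
        exact hx2
      linarith
    have h5 : (1 : ℝ) ≤ (2 - dist x z / r) ^ N := one_le_pow₀ h4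
    have h6 : 0 ≤ u x := hpos' x (closedBall_subset_closedBall (by linarith) hx)
    calc u x = 1 * u x := (one_mul _).symm
      _ ≤ (2 - dist x z / r) ^ N * u x := mul_le_mul_of_nonneg_right h5 h6
      _ ≤ _ := h3
  rcases hd0.eq_or_lt with hd | hd
  · rw [← hd, zero_pow (by omega), zero_mul] at hxle
    exact hxle.trans (mul_nonneg (by positivity) hyV)
  have hxs0 : 0 ≤ u xs := hpos xs hxsV
  rcases hxs0.eq_or_lt with hT | hT
  · rw [← hT, mul_zero] at hxle
    exact hxle.trans (mul_nonneg (by positivity) hyV)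
  -- the main case
  generalize hTd : u xs = T at *
  have hdist : 0 ≤ dist xs z := dist_nonneg
  obtain ⟨d, hdd⟩ : ∃ d, 2 - dist xs z / r = d := ⟨_, rfl⟩
  rw [hdd] at hmax' hd0 hxle hd
  have hdz : dist xs z = (2 - d) * r := by
    rw [← hdd]
    field_simp
    ring
  have hd2 : d ≤ 2 := by
    rw [← hdd]
    have : 0 ≤ dist xs z / r := by positivity
    linarith
  obtain ⟨s, hs⟩ : ∃ s, s = d * r / 4 := ⟨_, rfl⟩
  have hs0 : 0 < s := by
    rw [hs]
    positivity
  have hsr : s ≤ r / 2 := by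
    rw [hs]
    nlinarith
  have hdr : d * r = 4 * s := by
    rw [hs]
    ring
  have hub : ∀ y ∈ ball xs (2 * s), u y ≤ 2 ^ N * T := by
    intro y hy
    have e1 : dist y z ≤ (2 - d / 2) * r := by
      have e2 : dist y xs < 2 * s := hy
      have e3 := dist_triangle y xs z
      nlinarith
    have e4 : d / 2 ≤ 2 - dist y z / r := by
      have : dist y z / r ≤ 2 - d / 2 := by
        rw [div_le_iff₀ hr]
        exact e1
      linarith
    have e5 : y ∈ closedBall z (2 * r) := by
      rw [mem_closedBall]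
      nlinarith
    have e6 : 0 ≤ u y := hpos y (closedBall_subset_ball (by linarith) e5)
    have e7 : (d / 2) ^ N * u y ≤ (d / 2) ^ N * (2 ^ N * T) := by
      calc (d / 2) ^ N * u y ≤ (2 - dist y z / r) ^ N * u y :=
            mul_le_mul_of_nonneg_right (pow_le_pow_left₀ (by positivity) e4 N) e6
        _ ≤ d ^ N * T := hmax' y e5
        _ = (d / 2) ^ N * (2 ^ N * T) := by
            rw [← mul_assoc, ← mul_pow]
            congr 2
            ring
    exact le_of_mul_le_mul_left e7 (by positivity)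
  have hball : ∀ q : ℝ, q ≤ 24 * r → closedBall xs q ⊆ ball z (64 * r) := by
    intro q hq y hy
    rw [mem_closedBall] at hy
    rw [mem_ball]
    have := dist_triangle y xs z
    linarith
  have hm := hC2 (ball z (64 * r)) u (T / 2) xs (2 * s) isOpen_ball hu (by positivity)
    (hball _ (by linarith)) xs (mem_ball_self (by linarith))
  rw [hTd] at hm
  have hlarge := measure_large hop hC (u := u) (x := xs) (ρ := 2 * s) (T := T) (Λ := 2 ^ N)
    (by positivity) hT (by positivity) hm (hu.1.mono (hball _ (by linarith))) hub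
  have hfirst : ∀ y ∈ ball xs s, l * (T / 2) ≤ u y :=
    hl2 (ball z (64 * r)) u (T / 2) xs s isOpen_ball hu hs0 (hball _ (by linarith)) hpos
      (by positivity) hlarge
  have hiter := expand_iter (N := N) (u := u) (x := xs) (s := s) (k := l * (T / 2)) hs0
    (by positivity) (Q := 3 * r) (by
      intro s' k' hs' hk' hsQ hb
      exact hN (ball z (64 * r)) u xs s' k' isOpen_ball hu hpos hs' hk'
        (hball _ (by linarith)) hb) hfirst
  -- the number of steps
  have hexj : ∃ j : ℕ, 3 * r < 2 ^ j * s := by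
    obtain ⟨j, hj⟩ := pow_unbounded_of_one_lt (3 * r / s) (by norm_num : (1 : ℝ) < 2)
    refine ⟨j, ?_⟩
    rwa [div_lt_iff₀ hs0] at hj
  obtain ⟨j, hj1, hj2⟩ : ∃ j : ℕ, 3 * r < 2 ^ j * s ∧ ∀ i < j, 2 ^ i * s ≤ 3 * r := by
    classical
    refine ⟨Nat.find hexj, Nat.find_spec hexj, fun i hi => ?_⟩
    exact not_lt.1 (Nat.find_min hexj hi)
  have hj3 : (2 : ℝ) ^ j * s ≤ 6 * r := by
    rcases Nat.eq_zero_or_pos j with h0 | h0
    · rw [h0, pow_zero, one_mul]
      linarith
    · obtain ⟨i, rfl⟩ : ∃ i, j = i + 1 := ⟨j - 1, by omega⟩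
      have := hj2 i (by omega)
      rw [pow_succ]
      linarith
  have hyb : y ∈ ball xs (2 ^ j * s) := by
    rw [mem_ball]
    have hy2 : dist y z ≤ r := hy
    have := dist_triangle y z xs
    rw [dist_comm z xs] at this
    linarith
  have hfin := hiter j hj2 y hyb
  have hjd : d / 24 ≤ (1 / 2 : ℝ) ^ j := by
    have e1 : (2 : ℝ) ^ j * d * r ≤ 24 * r := by
      calc (2 : ℝ) ^ j * d * r = 4 * (2 ^ j * s) := by
            rw [mul_assoc, hdr]
            ring
        _ ≤ 24 * r := by linarith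
    have e2 : (2 : ℝ) ^ j * d ≤ 24 := le_of_mul_le_mul_right e1 hr
    rw [one_div, inv_pow, ← one_div, le_div_iff₀ (by positivity)]
    linarith
  have hpow : (d / 24) ^ N ≤ ((1 / 2 : ℝ) ^ j) ^ N := pow_le_pow_left₀ (by positivity) hjd N
  calc u x ≤ d ^ N * T := hxle
    _ = 24 ^ N * ((d / 24) ^ N * T) := by
        rw [← mul_assoc, ← mul_pow]
        congr 2
        ring
    _ ≤ 24 ^ N * (((1 / 2 : ℝ) ^ j) ^ N * T) := by gcongr
    _ = 2 * 24 ^ N / l * (((1 / 2 : ℝ) ^ j) ^ N * (l * (T / 2))) := by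
        field_simp
    _ ≤ 2 * 24 ^ N / l * u y := mul_le_mul_of_nonneg_left hfin (by positivity)

end Pool.Agent.Lib.MP_abd978_an.H42
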